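import Mathlib
import Pool.Agent.UDim.Defs
import Pool.Agent.UDim.Example

set_option autoImplicit false

universe u

namespace Pool.Agent.Results.MP_529953_al.Q2Counterexample

open Pool.Agent.UDim

/-- Negative answer to Q2, for every prime `p` and every field `k` of characteristic `p` (in fact
for every field `k` whatsoever): there is a finitely generated, solvable, amenable group `G`, not
depending on `k`, such that every finite `p'`-subgroup of `G` is trivial, but the group algebra
`k[G]` has infinite right uniform dimension. -/
theorem result :
    ∀ p : ℕ, p.Prime → ∃ (G : Type) (_ : Group G),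
      Group.FG G ∧ Group.IsSolvable G ∧ IsAmenable G ∧
      (∀ F : Subgroup G, Finite F → ¬ p ∣ Nat.card F → Nat.card F = 1) ∧
      ∀ (k : Type u) [Field k], rightUDim (MonoidAlgebra k G) = ⊤ := by
  intro p hp
  have : Fact p.Prime := ⟨hp⟩
  exact ⟨Ex p, inferInstance, fg_ex p, isSolvable_ex p,
    isAmenable_of_hasFolner (hasFolner_ex p), card_of_coprime p, fun k _ => udim_ex p k⟩

end Pool.Agent.Results.MP_529953_al.Q2Counterexample
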